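import Pool.Agent.H194.QF.A3

set_option autoImplicit false

/-!
# MP_16b0ee_an: the strong Marshall bound for maps with a `k`-quasiconformal extension, `k ≤ 0.54`

Let `(ψ_l)`, `|l| < 1`, be a Beltrami family: every `ψ_l` belongs to `Σ`, `h_l = log ψ_l'` depends
holomorphically on `l`, `h_0 = 0`, and the derivative of `h_l(z)` in `l` at `l = 0` is the Beurling
transform of a function `μ` on the unit disc with `|μ| ≤ 1`,

`(d/dl) h_l(z) = -(1/π) ∫_{|ζ| < 1} μ(ζ) / (z - ζ)² dA(ζ)` at `l = 0`.

By the measurable Riemann mapping theorem (Ahlfors and Bers; not used in the proof), every `ψ` in `Σ` with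
a `k`-quasiconformal extension to the plane is the member `ψ_k` of such a family: take for `ψ_l` the
normalised solution of the Beltrami equation with the dilatation `(l / k) μ_ψ`.

The theorem: let `0 < k < 1`, `q = √(694/125) = 2.3562...` and `κ = q k (1 + q k) / (q + k)`. If `a κ² < 1`,
then the integral of the question is bounded by a constant which depends only on `a` and `k`, for all
`R > 1`, all Beltrami families and all members `ψ_l` with `|l| ≤ k`. For `k = 27/50` this contains `a = 1`,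
so that the inequality of the question holds in its full range `0 < a < 1` (and for `a = 1`) for the maps
with a `k`-quasiconformal extension, `k ≤ 27/50 = 0.54`.

Hedenmalm's estimate (2017) gives the full range for `k < 0.313`; two earlier results in the library give it
for `k ≤ 0.41` (`QuasiconformalFamilies`, entropy and the elementary exponent `4 |t|²`) and for
`k ≤ 0.4242...` (`HolomorphicFamilies`, power area inequality and subharmonicity in `l`).

The proof. Let `ρ` be a positive continuous density on the circle with mean `1`, let `e` be the mean of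
`ρ log ρ` and let `J(l)` be the mean of `ρ h_l` over the circle `|z| = R`, `L = log (R² / (R² - 1))`.
1. At the centre: `|J'(0)| ≤ R (L e)^(1/2) + 6` (entropy inequality of the library, a dual form of
   Hedenmalm's sharp theorem on the Bergman projection).
2. Near the boundary of the parameter disc: for every `ψ` in `Σ` and every complex `t` the mean of
   `exp (Re (conj t h))` is at most `K exp ((347/250) |t|² L)` with one constant `K` (power area inequality,
   Goluzin's inequality and Gronwall's area theorem, an earlier result in the library). With Gibbs'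
   inequality this gives `|J(l)| ≤ q (L e)^(1/2)` up to an error which depends on `K`, for `|l| < 1`.
3. `J` is holomorphic and `J(0) = 0`. The Schwarz-Pick lemma for `J(l) / l` gives
   `|J(l)| ≤ κ R (L e)^(1/2)` up to an error, for `|l| ≤ k`.
4. With `ρ` proportional to `exp (Re (conj t h_l))` one gets the bound
   `K exp (6 κ |t| + κ² R² |t|² L / 4)` for the mean of `exp (Re (conj t h_l))`, and then one takes a
   Gaussian average over `t`.
-/

namespace Pool.Agent.Results.MP_16b0ee_an.QuasiconformalExtension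

open Filter Topology MeasureTheory

/-- `f` is holomorphic on `|z| > 1` and tends to `c` at infinity. -/
def HolWithValue (f : ℂ → ℂ) (c : ℂ) : Prop :=
  DifferentiableOn ℂ f {z : ℂ | 1 < ‖z‖} ∧ Tendsto f (Bornology.cobounded ℂ) (𝓝 c)

/-- `ψ` belongs to `Σ`, and `h` is the branch of `log ψ'` that vanishes at infinity. -/
def InSigma (ψ h : ℂ → ℂ) : Prop :=
  DifferentiableOn ℂ ψ {z : ℂ | 1 < ‖z‖} ∧ Set.InjOn ψ {z : ℂ | 1 < ‖z‖} ∧
    (∃ b : ℂ, Tendsto (fun z => ψ z - z) (Bornology.cobounded ℂ) (𝓝 b)) ∧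
    HolWithValue h 0 ∧ ∀ z : ℂ, 1 < ‖z‖ → Complex.exp (h z) = deriv ψ z

/-- The Beurling transform of a function on the unit disc, at a point outside of the disc. -/
noncomputable def beurling (μ : ℂ → ℂ) (z : ℂ) : ℂ :=
  -(1 / Real.pi) * ∫ ζ in Metric.ball (0 : ℂ) 1, μ ζ / (z - ζ) ^ 2

/-- A Beltrami family: `ψ l` belongs to `Σ` for `|l| < 1`, its `h l = log (ψ l)'` is holomorphic in `l`,
`h 0 = 0`, and the derivative of `h l z` in `l` at `l = 0` is the Beurling transform of a measurable `μ`
with `|μ| ≤ 1`. -/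
structure BeltramiFamily (ψ h : ℂ → ℂ → ℂ) (μ : ℂ → ℂ) : Prop where
  inSigma : ∀ l : ℂ, ‖l‖ < 1 → InSigma (ψ l) (h l)
  holomorphic : ∀ z : ℂ, 1 < ‖z‖ → DifferentiableOn ℂ (fun l => h l z) {l : ℂ | ‖l‖ < 1}
  zero : ∀ z : ℂ, 1 < ‖z‖ → h 0 z = 0
  measurable : Measurable μ
  le_one : ∀ ζ : ℂ, ‖μ ζ‖ ≤ 1
  deriv_zero : ∀ z : ℂ, 1 < ‖z‖ → deriv (fun l => h l z) 0 = beurling μ z

/-- The integral of the question. -/
noncomputable def marshall (a R : ℝ) (h : ℂ → ℂ) : ℝ :=
  (1 / (2 * Real.pi)) * ∫ θ in (0 : ℝ)..(2 * Real.pi),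
    Real.exp (a * ‖h ((R : ℂ) * Complex.exp ((θ : ℂ) * Complex.I))‖ ^ 2
      / Real.log (R ^ 2 / (R ^ 2 - 1)))

/-- The constant `κ(k) = q k (1 + q k) / (q + k)`, `q = √(694/125)`. -/
noncomputable def kappa (k : ℝ) : ℝ :=
  Real.sqrt (694 / 125) * k * (1 + Real.sqrt (694 / 125) * k) / (Real.sqrt (694 / 125) + k)

/-- **The strong Marshall bound for Beltrami families.** -/
theorem result :
    (∀ k a : ℝ, 0 < k → k < 1 → 0 < a → a * kappa k ^ 2 < 1 →
      ∃ C : ℝ, ∀ (ψ h : ℂ → ℂ → ℂ) (μ : ℂ → ℂ) (l : ℂ) (R : ℝ), BeltramiFamily ψ h μ → ‖l‖ ≤ k →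
        1 < R → marshall a R (h l) ≤ C) ∧
    (∃ C : ℝ, ∀ (ψ h : ℂ → ℂ → ℂ) (μ : ℂ → ℂ) (l : ℂ) (R a : ℝ), BeltramiFamily ψ h μ →
      ‖l‖ ≤ 27 / 50 → 1 < R → 0 < a → a ≤ 1 → marshall a R (h l) ≤ C) := by
  have key : ∀ k a : ℝ, 0 < k → k < 1 → 0 < a → a * kappa k ^ 2 < 1 →
      ∃ C : ℝ, ∀ (ψ h : ℂ → ℂ → ℂ) (μ : ℂ → ℂ) (l : ℂ) (R : ℝ), BeltramiFamily ψ h μ → ‖l‖ ≤ k →
        1 < R → marshall a R (h l) ≤ C := by
    intro k a hk0 hk1 ha hak
    obtain ⟨C, hC⟩ := H194.QF.ext_final' hk0 hk1 ha (by unfold H194.QF.kc H194.QF.c0; exact hak)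
    refine ⟨C, fun ψ h μ l R S hl hR => ?_⟩
    have hb : Metric.ball (0 : ℂ) 1 = {l : ℂ | ‖l‖ < 1} := by
      ext x
      simp
    refine hC ψ h μ l R ⟨?_, ?_, ?_, ?_, ?_, ?_, ?_, S.zero, S.measurable, S.le_one, ?_⟩ hl hR
    · exact fun l hl => (S.inSigma l (by simpa using hl)).1
    · exact fun l hl => (S.inSigma l (by simpa using hl)).2.1
    · exact fun l hl => (S.inSigma l (by simpa using hl)).2.2.1
    · exact fun l hl => (S.inSigma l (by simpa using hl)).2.2.2.1.1
    · exact fun l hl => (S.inSigma l (by simpa using hl)).2.2.2.2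
    · exact fun l hl => (S.inSigma l (by simpa using hl)).2.2.2.1.2
    · rw [hb]
      exact S.holomorphic
    · exact S.deriv_zero
  refine ⟨key, ?_⟩
  have hk1 : kappa (27 / 50) < 1 := H194.QF.kc_lt
  have hk0 : 0 < kappa (27 / 50) := H194.QF.kc_pos (by norm_num)
  obtain ⟨C, hC⟩ := key (27 / 50) 1 (by norm_num) (by norm_num) one_pos (by
    rw [one_mul]
    exact pow_lt_one₀ hk0.le hk1 two_ne_zero)
  refine ⟨C, fun ψ h μ l R a S hl hR ha ha1 => ?_⟩
  refine le_trans ?_ (hC ψ h μ l R S hl hR)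
  have hpi := Real.pi_pos
  have hR2 : 0 < R ^ 2 - 1 := by nlinarith
  have hl1 : ‖l‖ < 1 := by linarith
  have hL : 0 < Real.log (R ^ 2 / (R ^ 2 - 1)) := by
    apply Real.log_pos
    rw [one_lt_div hR2]
    linarith
  have hc : Continuous fun θ : ℝ => h l ((R : ℂ) * Complex.exp ((θ : ℂ) * Complex.I)) := by
    apply (S.inSigma l hl1).2.2.2.1.1.continuousOn.comp_continuous (by fun_prop)
    intro θ
    show 1 < ‖(R : ℂ) * Complex.exp ((θ : ℂ) * Complex.I)‖
    rw [norm_mul, Complex.norm_exp_ofReal_mul_I, mul_one, Complex.norm_real,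
      Real.norm_of_nonneg (by linarith)]
    exact hR
  unfold marshall
  apply mul_le_mul_of_nonneg_left _ (by positivity)
  apply intervalIntegral.integral_mono_on (by positivity)
  · exact (Real.continuous_exp.comp
      ((continuous_const.mul (hc.norm.pow 2)).div_const _)).intervalIntegrable _ _
  · exact (Real.continuous_exp.comp
      ((continuous_const.mul (hc.norm.pow 2)).div_const _)).intervalIntegrable _ _
  · intro θ _
    apply Real.exp_le_exp.2
    apply div_le_div_of_nonneg_right _ hL.le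
    exact mul_le_mul_of_nonneg_right ha1 (sq_nonneg _)

end Pool.Agent.Results.MP_16b0ee_an.QuasiconformalExtension
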